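import Pool.Agent.UL6.Stmts
import Pool.Agent.Helper23_UL3.PLN

/-! Squad UL6, row PLM: the area inequality. -/

set_option autoImplicit false

namespace Pool.Agent.UL6.H23

open MeasureTheory Set Pool.Agent.UL3 Pool.Agent.UL4 Pool.Agent.UL5 Pool.Agent.UL3.H23

theorem cr_shift (u p : ℝ × ℝ) (l : ℝ) : cr u (p + (l / 2) • u) = cr u p := by
  simp only [cr, Prod.fst_add, Prod.snd_add, Prod.smul_fst, Prod.smul_snd, smul_eq_mul]
  ring

theorem plm (h1 : PmnStmt) (h2 : PnmStmt) : PlmStmt := by
  intro C l h hC hl hl2 hh hall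
  obtain ⟨a, p, ha, hai, hp, hpa, hpm, hmin⟩ := h1 C l hC (by linarith) (by linarith)
  obtain ⟨p0, hp01, hp02, hp03⟩ := hall a ha hai
  have hD1 : h ≤ cr a p := hp03.trans (hpm p0 hp01 hp02)
  obtain ⟨b, hb⟩ : ∃ b, b = p + (l / 2) • a := ⟨_, rfl⟩
  have hcab : cr a b = cr a p := by rw [hb, cr_shift]
  have hD : 0 < cr a b := by rw [hcab]; linarith
  obtain ⟨e, he⟩ : ∃ e : (ℝ × ℝ) ≃ₜ (ℝ × ℝ), ∀ x, e x = Ph a b x :=
    ⟨He a b hD, he_apply a b hD⟩
  obtain ⟨C', hC'⟩ : ∃ C' : Set (ℝ × ℝ), C' = e ⁻¹' C := ⟨_, rfl⟩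
  have hmem : ∀ p, p ∈ C' ↔ Ph a b p ∈ C := by
    intro p
    rw [hC', mem_preimage, he]
  have hint : interior C' = e ⁻¹' (interior C) := by
    rw [hC']
    exact (e.preimage_interior C).symm
  have hintm : ∀ p, p ∈ interior C' ↔ Ph a b p ∈ interior C := by
    intro p
    rw [hint, mem_preimage, he]
  have hPB : PB C' := by
    refine ⟨?_, ?_, ?_, ?_⟩
    · rw [hC', ← e.image_symm]
      exact hC.cpt.image e.symm.continuous
    · have h5 : C' = (Ph a b) ⁻¹' C := by
        ext p
        rw [hmem, mem_preimage]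
      rw [h5]
      exact hC.cvx.linear_preimage _
    · intro x hx
      rw [hmem] at hx ⊢
      rw [map_neg]
      exact hC.sym _ hx
    · obtain ⟨y, hy⟩ := hC.int
      refine ⟨e.symm y, ?_⟩
      rw [hint, mem_preimage, e.apply_symm_apply]
      exact hy
  have e10 : Ph a b (1, 0) = a := by
    rw [ph_apply]
    ext <;> simp
  have el0 : Ph a b (l, 0) = l • a := by
    rw [ph_apply]
    ext
    · simp
      ring
    · simp
      ring
  have em1 : Ph a b (-(l / 2), 1) = p := by
    rw [ph_apply, hb]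
    ext
    · simp
      ring
    · simp
      ring
  have em2 : Ph a b (l / 2, 1) = p + l • a := by
    rw [ph_apply, hb]
    ext
    · simp
      ring
    · simp
      ring
  have key := h2 C' l hPB hl hl2 (by rw [hmem, e10]; exact ha) (by rw [hintm, e10]; exact hai)
    (by rw [hmem, em1]; exact hp) (by rw [hmem, em2]; exact hpa)
    (by
      intro q hq hq2
      rw [hmem] at hq hq2
      rw [map_add, el0] at hq2
      have h5 := hpm _ hq hq2
      have h6 : cr a (Ph a b q) = cr a b * q.2 := by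
        have h7 := ph_cr a b (1, 0) q
        rw [e10] at h7
        rw [h7]
        simp only [cr]
        ring
      rw [h6, ← hcab] at h5
      by_contra h7
      push Not at h7
      nlinarith)
    (by
      intro u hu hui
      rw [hmem] at hu
      rw [hintm] at hui
      obtain ⟨q, hq1, hq2, hq3⟩ := hmin _ hu hui
      obtain ⟨r, hr⟩ : ∃ r, Ph a b r = q := by
        refine ⟨e.symm q, ?_⟩
        rw [← he, e.apply_symm_apply]
      refine ⟨r, ?_, ?_, ?_⟩
      · rw [hmem, hr]
        exact hq1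
      · rw [hmem, map_add, map_smul, hr]
        exact hq2
      · rw [← hr, ph_cr, ← hcab] at hq3
        have h5 : cr a b * 1 ≤ cr a b * cr u r := by rw [mul_one]; exact hq3
        exact le_of_mul_le_mul_left h5 hD)
  -- the volumes
  have hvol : ar C = cr a b * ar C' := by
    have h10 : C' = (Ph a b) ⁻¹' C := by
      ext p
      rw [hmem, mem_preimage]
    have h11 : (volume : Measure (ℝ × ℝ)) C' =
        ENNReal.ofReal |(LinearMap.det (Ph a b))⁻¹| * (volume : Measure (ℝ × ℝ)) C := by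
      rw [h10]
      apply MeasureTheory.Measure.addHaar_preimage_linearMap
      rw [ph_det]
      exact hD.ne'
    rw [ph_det] at h11
    have h12 : (volume : Measure (ℝ × ℝ)).real C' =
        (cr a b)⁻¹ * (volume : Measure (ℝ × ℝ)).real C := by
      rw [Measure.real, h11, ENNReal.toReal_mul, ENNReal.toReal_ofReal (abs_nonneg _),
        abs_of_pos (inv_pos.2 hD), Measure.real]
    unfold ar
    rw [h12, ← mul_assoc, mul_inv_cancel₀ hD.ne', one_mul]
  have hpos : 0 ≤ 2 * l + 2 * l ^ 2 - l ^ 3 := by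
    have h5 : 0 ≤ l ^ 2 * (2 - l) := by
      apply mul_nonneg (sq_nonneg l)
      linarith
    nlinarith
  rw [hvol]
  calc (2 * l + 2 * l ^ 2 - l ^ 3) * h ≤ (2 * l + 2 * l ^ 2 - l ^ 3) * cr a b :=
        mul_le_mul_of_nonneg_left (by rw [hcab]; exact hD1) hpos
    _ = cr a b * (2 * l + 2 * l ^ 2 - l ^ 3) := by ring
    _ ≤ cr a b * ar C' := mul_le_mul_of_nonneg_left key hD.le

end Pool.Agent.UL6.H23
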