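import Pool.Agent.UL6.Stmts

/-! Squad UL6, row PMN: a direction whose highest chord is lowest. -/

set_option autoImplicit false

namespace Pool.Agent.UL6.H23

open MeasureTheory Set Filter Topology Pool.Agent.UL3 Pool.Agent.UL4 Pool.Agent.UL5

theorem cr_combo (u p : ℝ × ℝ) (δ l : ℝ) :
    cr u ((1 - δ) • p + δ • (-((l / 2) • u))) = (1 - δ) * cr u p := by
  simp only [cr, Prod.fst_add, Prod.snd_add, Prod.smul_fst, Prod.smul_snd, Prod.fst_neg,
    Prod.snd_neg, smul_eq_mul]
  ring

theorem bdry_nonempty {C : Set (ℝ × ℝ)} (hC : PB C) : (C \ interior C).Nonempty := by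
  by_contra h
  rw [Set.not_nonempty_iff_eq_empty, Set.diff_eq_empty] at h
  have h1 : interior C = C := subset_antisymm interior_subset h
  have h2 : IsClopen C := ⟨hC.cpt.isClosed, by rw [← h1]; exact isOpen_interior⟩
  rcases isClopen_iff.1 h2 with h3 | h3
  · have h4 := hC.int
    rw [h1, h3] at h4
    exact Set.not_nonempty_empty h4
  · have h4 := hC.cpt
    rw [h3] at h4
    exact noncompact_univ (ℝ × ℝ) h4

theorem pmn : PmnStmt := by
  intro C l hC hl hl2
  have h0 : (0 : ℝ × ℝ) ∈ interior C := hC.zero_mem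
  -- small multiples are interior
  have hin : ∀ u ∈ C, (l / 2) • u ∈ interior C := by
    intro u hu
    have h1 := hC.cvx.combo_interior_self_mem_interior h0 hu (a := 1 - l / 2) (b := l / 2)
      (by linarith) (by linarith) (by ring)
    rw [smul_zero, zero_add] at h1
    exact h1
  have hinn : ∀ u ∈ C, -((l / 2) • u) ∈ interior C := by
    intro u hu
    have h1 := hin (-u) (hC.sym u hu)
    rw [smul_neg] at h1
    exact h1
  have hsum : ∀ u : ℝ × ℝ, -((l / 2) • u) + l • u = (l / 2) • u := by
    intro u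
    module
  -- maximisers
  have hmax : ∀ u ∈ C, ∃ p ∈ C, p + l • u ∈ C ∧ ∀ p' ∈ C, p' + l • u ∈ C → cr u p' ≤ cr u p := by
    intro u hu
    have hcl : IsClosed {p : ℝ × ℝ | p + l • u ∈ C} :=
      hC.cpt.isClosed.preimage (by fun_prop : Continuous fun p : ℝ × ℝ => p + l • u)
    have hco : IsCompact (C ∩ {p : ℝ × ℝ | p + l • u ∈ C}) := hC.cpt.inter_right hcl
    have hne : (C ∩ {p : ℝ × ℝ | p + l • u ∈ C}).Nonempty := by
      refine ⟨-((l / 2) • u), interior_subset (hinn u hu), ?_⟩
      rw [Set.mem_setOf_eq, hsum]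
      exact interior_subset (hin u hu)
    have hcont : ContinuousOn (fun p => cr u p) (C ∩ {p : ℝ × ℝ | p + l • u ∈ C}) := by
      apply Continuous.continuousOn
      unfold cr
      fun_prop
    obtain ⟨p, hp, hpm⟩ := hco.exists_isMaxOn hne hcont
    exact ⟨p, hp.1, hp.2, fun p' h1 h2 => hpm ⟨h1, h2⟩⟩
  choose! m hm1 hm2 hm3 using hmax
  have hB : IsCompact (C \ interior C) := hC.cpt.diff isOpen_interior
  have hlsc : LowerSemicontinuousOn (fun u => cr u (m u)) (C \ interior C) := by
    intro u hu y hy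
    have hy' : y < cr u (m u) := hy
    have hh0 : 0 ≤ cr u (m u) := by
      have h1 := hm3 u hu.1 (-((l / 2) • u)) (interior_subset (hinn u hu.1)) (by
        rw [hsum]
        exact interior_subset (hin u hu.1))
      have h2 : cr u (-((l / 2) • u)) = 0 := by
        simp only [cr, Prod.smul_fst, Prod.smul_snd, Prod.fst_neg, Prod.snd_neg, smul_eq_mul]
        ring
      rw [h2] at h1
      exact h1
    -- the choice of `δ`
    obtain ⟨δ, hδ0, hδ1, hδ⟩ : ∃ δ : ℝ, 0 < δ ∧ δ < 1 ∧ y < (1 - δ) * cr u (m u) := by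
      rcases eq_or_lt_of_le hh0 with h1 | h1
      · refine ⟨1 / 2, by norm_num, by norm_num, ?_⟩
        rw [← h1, mul_zero]
        rw [← h1] at hy'
        exact hy'
      · refine ⟨min (1 / 2) ((cr u (m u) - y) / (2 * cr u (m u))), ?_, ?_, ?_⟩
        · apply lt_min (by norm_num)
          apply div_pos (by linarith) (by linarith)
        · exact lt_of_le_of_lt (min_le_left _ _) (by norm_num)
        · have h2 : min (1 / 2) ((cr u (m u) - y) / (2 * cr u (m u))) * cr u (m u) ≤
              (cr u (m u) - y) / 2 := by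
            calc min (1 / 2) ((cr u (m u) - y) / (2 * cr u (m u))) * cr u (m u)
                ≤ (cr u (m u) - y) / (2 * cr u (m u)) * cr u (m u) :=
                  mul_le_mul_of_nonneg_right (min_le_right _ _) h1.le
              _ = (cr u (m u) - y) / 2 := by
                  field_simp
          have h3 : (1 - min (1 / 2) ((cr u (m u) - y) / (2 * cr u (m u)))) * cr u (m u) =
              cr u (m u) - min (1 / 2) ((cr u (m u) - y) / (2 * cr u (m u))) * cr u (m u) := by
            ring
          rw [h3]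
          linarith
    obtain ⟨q, hq⟩ : ∃ q, q = (1 - δ) • m u + δ • (-((l / 2) • u)) := ⟨_, rfl⟩
    have hqi : q ∈ interior C := by
      rw [hq]
      exact hC.cvx.combo_self_interior_mem_interior (hm1 u hu.1) (hinn u hu.1) (by linarith) hδ0
        (by ring)
    have hqu : q + l • u ∈ interior C := by
      have h1 := hC.cvx.combo_self_interior_mem_interior (hm2 u hu.1) (hin u hu.1)
        (a := 1 - δ) (b := δ) (by linarith) hδ0 (by ring)
      have h2 : (1 - δ) • (m u + l • u) + δ • ((l / 2) • u) = q + l • u := by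
        rw [hq]
        module
      rw [h2] at h1
      exact h1
    have hcru : y < cr u q := by
      rw [hq, cr_combo]
      exact hδ
    have e1 : ∀ᶠ u' in 𝓝[C \ interior C] u, q + l • u' ∈ interior C := by
      have hc : Continuous fun u' : ℝ × ℝ => q + l • u' := by fun_prop
      exact (hc.tendsto u).mono_left nhdsWithin_le_nhds (isOpen_interior.mem_nhds hqu)
    have e2 : ∀ᶠ u' in 𝓝[C \ interior C] u, y < cr u' q := by
      have hc : Continuous fun u' : ℝ × ℝ => cr u' q := by
        unfold cr
        fun_prop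
      exact ((hc.tendsto u).mono_left nhdsWithin_le_nhds).eventually (lt_mem_nhds hcru)
    filter_upwards [e1, e2, self_mem_nhdsWithin] with u' h1 h2 h3
    exact lt_of_lt_of_le h2 (hm3 u' h3.1 q (interior_subset hqi) (interior_subset h1))
  obtain ⟨u, hu, hmin⟩ := hlsc.exists_isMinOn (bdry_nonempty hC) hB
  refine ⟨u, m u, hu.1, hu.2, hm1 u hu.1, hm2 u hu.1, hm3 u hu.1, ?_⟩
  intro u' h1 h2
  exact ⟨m u', hm1 u' h1, hm2 u' h1, hmin ⟨h1, h2⟩⟩

end Pool.Agent.UL6.H23
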